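import Mathlib

set_option autoImplicit false

namespace Pool.Agent.Results.MP_59f064_al.RegularPowers

universe u

/-- An element `a` of a ring is (von Neumann) regular if `a = a x a` for some `x`. -/
def IsVNRegular {R : Type u} [Ring R] (a : R) : Prop := ∃ x : R, a = a * x * a

/-- A ring is `π`-regular if each element has a power, with exponent at least one, which is
regular. -/
def IsPiRegularRing (R : Type u) [Ring R] : Prop :=
  ∀ a : R, ∃ n : ℕ, 1 ≤ n ∧ IsVNRegular (a ^ n)

/-- In a `π`-regular ring `R` each element `a` (regular or not) and each `N ≥ 1` admit some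
`n ≥ 1` such that `a ^ (N * n)` is regular. For `N = 2`: each element `a` has a regular power
`a ^ k` with `k ≥ 2`. -/
theorem result (R : Type u) [Ring R] (hR : IsPiRegularRing R) (a : R) (N : ℕ) (_hN : 1 ≤ N) :
    ∃ n : ℕ, 1 ≤ n ∧ IsVNRegular (a ^ (N * n)) := by
  obtain ⟨n, hn, h⟩ := hR (a ^ N)
  exact ⟨n, hn, by rwa [pow_mul]⟩

end Pool.Agent.Results.MP_59f064_al.RegularPowers
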